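import Pool.Agent.Y57.FD.Tup0
import Pool.Agent.Y57.FD.KlM

/-!
# The first four Weyl sums of the Kloosterman angles, over arbitrary families of weights on the primes and jointly at `s` consecutive
primes: square-root cancellation for almost all integers which arise from an arbitrary integer by changing a few digits
-/

set_option autoImplicit false

namespace Pool.Agent.Results.MP_6ea630_nt.FewDigitWeylSums

open Finset

/-- The Kloosterman sum `S(a, 1; p)`. -/
noncomputable def kloosterman (p a : ℕ) : ℝ :=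
  ∑ x ∈ Ico 1 p, Real.cos (2 * Real.pi * ((((a : ZMod p) * (x : ZMod p) + (x : ZMod p)⁻¹).val : ℕ) : ℝ) / (p : ℝ))

/-- The cosine of the angle `θ` with `S(a, 1; p) = 2 p ^ (1 / 2) cos θ`, and `0` if `p` divides `a`. -/
noncomputable def cosAngle (p a : ℕ) : ℝ := if p ∣ a then 0 else kloosterman p a / (2 * Real.sqrt p)

/-- The joint Weyl sum of the orders `j i` at the `s` consecutive primes with the indices `k, ..., k + s - 1`, `k < n` (the primes are
numbered from `0`), with the weights `w k`; `U_j (cos θ) = sin ((j + 1) θ) / sin θ` is the Chebyshev polynomial. -/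
noncomputable def weylSum (s : ℕ) (w : ℕ → ℝ) (j : Fin s → ℕ) (n a : ℕ) : ℝ :=
  ∑ k ∈ range n, w k * ∏ i : Fin s, (Polynomial.Chebyshev.U ℝ (j i : ℤ)).eval (cosAngle (Nat.nth Nat.Prime (k + i)) a)

/-- For all weights in `W` and all orders `j i ≤ 4`, not all zero, the joint Weyl sum is at most
`(max 1 (∑ w k ^ 2)) ^ (1 / 2) n ^ δ`. -/
def Cancels (s : ℕ) (δ : ℝ) (W : Set (ℕ → ℝ)) (n a : ℕ) : Prop :=
  ∀ w ∈ W, ∀ j : Fin s → ℕ, (∀ i, j i ≤ 4) → (∃ i, j i ≠ 0) →
    |weylSum s w j n a| ≤ Real.sqrt (max 1 (∑ k ∈ range n, w k ^ 2)) * (n : ℝ) ^ δ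

/-- The digit number `i` (counted from the right, beginning with `0`) of `n` in base `b`. -/
def digit (b i n : ℕ) : ℕ := n / b ^ i % b

/-- The number which arises from the number `N` with at most `K` digits in base `b`, if for every `i ∈ S`
the digit number `i` is replaced by `f i`. -/
def change (b K N : ℕ) (f : ℕ → ℕ) (S : Finset ℕ) : ℕ :=
  ∑ i ∈ range K, (if i ∈ S then f i else digit b i N) * b ^ i

open Classical in
/-- The number of the choices of `r` of the `K` positions for which the number obtained by changing the digits of `N` at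
the chosen positions (according to `f`) does not have the property `E`. -/
noncomputable def exceptions (b K r N : ℕ) (f : ℕ → ℕ) (E : ℕ → Prop) : ℕ :=
  ((powersetCard r (range K)).filter (fun S => ¬ E (change b K N f S))).card

open Classical in
lemma exceptions_eq (b K r N : ℕ) (f : ℕ → ℕ) (E : ℕ → Prop) : exceptions b K r N f E =
    Pool.Agent.Y57.FD.exceptions b (fun _ : Fin 1 => K) (fun _ => r) (fun _ => N) (fun _ => f) (fun m => E (m 0)) := by
  unfold exceptions Pool.Agent.Y57.FD.exceptions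
  apply card_bij (fun S _ => fun _ : Fin 1 => S)
  · intro S hS
    rw [mem_filter] at hS ⊢
    refine ⟨Fintype.mem_piFinset.2 fun _ => hS.1, ?_⟩
    exact hS.2
  · intro S _ S' _ h
    exact congrFun h 0
  · intro S hS
    rw [mem_filter, Fintype.mem_piFinset] at hS
    refine ⟨S 0, ?_, ?_⟩
    · rw [mem_filter]
      exact ⟨hS.1 0, hS.2⟩
    · funext i
      rw [Subsingleton.elim i 0]

/-- Let a base `b ≥ 2`, an integer `s ≥ 1`, `δ > 0` and integers `A, B ≥ 0` be given. There are `c > 0` and `y₀` such that for all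
integers `r`, `K`, `y` with `2 r ≤ K` and `y ≥ y₀` the following holds.

Let `0 ≤ N < b ^ K` be an arbitrary integer, prescribe for every position `j` a digit `f j` different from the digit of
`N` in base `b`, and let for every `n` an arbitrary set `W n` of at most `n ^ B` weights `w : ℕ → [-1, 1]` be given (for instance
the indicator functions of intervals, residue classes or other sets of primes, or the values of characters). If one chooses `r` of
the `K` positions and replaces the digits of `N` at these positions, then for all but at most a proportion `1 / y ^ A` of the choices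
the number `a` obtained has the following property: for all integers `n` with `y ≤ n ≤ exp (c r)`, all weights `w ∈ W n` and all orders
`j 1, ..., j s ≤ 4`, not all zero, the Weyl sum `∑ w k U_{j 1} (cos θ_{p_k}) ... U_{j s} (cos θ_{p_{k + s - 1}})` over `k < n` of the
angles of the sums `S(a, 1; p)` at `s` consecutive primes is at most `(max 1 (∑ w k ^ 2)) ^ (1 / 2) n ^ δ`. -/
theorem result (b s : ℕ) (hb : 2 ≤ b) (hs : 1 ≤ s) (δ : ℝ) (hδ : 0 < δ) (A B : ℕ) :
    ∃ c : ℝ, 0 < c ∧ ∃ y₀ : ℕ, ∀ r K y : ℕ, 2 * r ≤ K → y₀ ≤ y →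
    ∀ N : ℕ, N < b ^ K → ∀ f : ℕ → ℕ, (∀ j, f j < b ∧ f j ≠ digit b j N) →
    ∀ W : ℕ → Set (ℕ → ℝ), (∀ n, (W n).Finite ∧ (W n).ncard ≤ n ^ B) → (∀ n, ∀ w ∈ W n, ∀ k, |w k| ≤ 1) →
      (exceptions b K r N f (fun a => ∀ n : ℕ, y ≤ n → (n : ℝ) ≤ Real.exp (c * r) → Cancels s δ (W n) n a) : ℝ) ≤
        1 / (y : ℝ) ^ A * (K.choose r : ℝ) := by
  classical
  obtain ⟨c, hc, y₁, h⟩ := Pool.Agent.Y57.FD.tuples0 b 1 s hb le_rfl hs δ hδ A (B + 3 * s) 29 13 (by norm_num) (by norm_num)
  refine ⟨c, hc, y₁ + 2, fun r K y hrK hy N hN f hf W hW hW1 => ?_⟩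
  rw [exceptions_eq]
  have hWf : ∀ n, (W n).Finite := fun n => (hW n).1
  obtain ⟨J, hJ⟩ : ∃ J : Finset (Fin s → ℕ), J = (Fintype.piFinset (fun _ : Fin s => range 5)).filter (fun j => ∃ i, j i ≠ 0) := ⟨_, rfl⟩
  have hJm : ∀ j : Fin s → ℕ, j ∈ J ↔ (∀ i, j i ≤ 4) ∧ ∃ i, j i ≠ 0 := by
    intro j
    rw [hJ, mem_filter, Fintype.mem_piFinset]
    simp only [mem_range]
    constructor
    · rintro ⟨h1, h2⟩
      exact ⟨fun i => by have := h1 i; omega, h2⟩
    · rintro ⟨h1, h2⟩
      exact ⟨fun i => by have := h1 i; omega, h2⟩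
  have hmain := h (fun _ => K) (fun _ => r) y (fun _ => hrK) (by omega) (fun _ => N) (fun _ => hN) (fun _ => f) (fun _ j => hf j)
    ((ℕ → ℝ) × (Fin s → ℕ)) (fun n => (hWf n).toFinset ×ˢ J) ?_ (fun l => l.1) ?_
    (fun l i p m => if l.2 i ≤ 4 then (Polynomial.Chebyshev.U ℝ (l.2 i : ℤ)).eval (Pool.Agent.Y57.FD.KM.ca p (m 0)) else 0)
    ?_ ?_ ?_ (fun m => ∀ n : ℕ, y ≤ n → (n : ℝ) ≤ Real.exp (c * r) → Cancels s δ (W n) n (m 0)) ?_
  · simpa using hmain
  · intro n hn
    rw [card_product, ← Set.ncard_eq_toFinset_card _ (hWf n), pow_add]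
    apply Nat.mul_le_mul (hW n).2
    have h1 : J.card ≤ 5 ^ s := by
      rw [hJ]
      refine (card_filter_le _ _).trans ?_
      rw [Fintype.card_piFinset_const, card_range]
    refine h1.trans ?_
    rw [pow_mul]
    apply Nat.pow_le_pow_left
    calc 5 ≤ 2 ^ 3 := by norm_num
      _ ≤ n ^ 3 := Nat.pow_le_pow_left hn 3
  · intro n l hl k
    rw [mem_product, Set.Finite.mem_toFinset] at hl
    exact hW1 n l.1 hl.1 k
  · intro l i p _ m
    show (if l.2 i ≤ 4 then (Polynomial.Chebyshev.U ℝ (l.2 i : ℤ)).eval (Pool.Agent.Y57.FD.KM.ca p (m 0)) else 0) =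
      (if l.2 i ≤ 4 then (Polynomial.Chebyshev.U ℝ (l.2 i : ℤ)).eval (Pool.Agent.Y57.FD.KM.ca p (m 0 % p)) else 0)
    rw [Pool.Agent.Y57.FD.KM.ca_mod]
  · intro l i p hp m
    haveI : Fact p.Prime := ⟨hp⟩
    show |(if l.2 i ≤ 4 then (Polynomial.Chebyshev.U ℝ (l.2 i : ℤ)).eval (Pool.Agent.Y57.FD.KM.ca p (m 0)) else 0)| ≤ 29
    split_ifs with h1
    · exact Pool.Agent.Y57.FD.KM.U_le _ h1 (Pool.Agent.Y57.FD.KM.ca_le _)
    · rw [abs_zero]
      norm_num
  · intro n l hl
    rw [mem_product] at hl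
    obtain ⟨h1, i, hi⟩ := (hJm l.2).1 hl.2
    refine ⟨i, fun p hp => ?_⟩
    haveI : Fact p.Prime := ⟨hp⟩
    have h2 : (fun m : Fin 1 → ℕ => if l.2 i ≤ 4 then (Polynomial.Chebyshev.U ℝ (l.2 i : ℤ)).eval (Pool.Agent.Y57.FD.KM.ca p (m 0)) else 0) =
        fun m : Fin 1 → ℕ => (Polynomial.Chebyshev.U ℝ (l.2 i : ℤ)).eval (Pool.Agent.Y57.FD.KM.ca p (m 0)) := by
      funext m
      rw [if_pos (h1 i)]
    show |Pool.Agent.TH894.NE.mean 1 p (fun m : Fin 1 → ℕ => if l.2 i ≤ 4 then (Polynomial.Chebyshev.U ℝ (l.2 i : ℤ)).eval (Pool.Agent.Y57.FD.KM.ca p (m 0)) else 0)| ≤ _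
    rw [h2]
    exact Pool.Agent.Y57.FD.KM.meanU _ (Nat.one_le_iff_ne_zero.2 hi) (h1 i)
  · intro m hm n hyn hnr w hw j hj hj0
    have h1 := hm n (by omega) hyn (fun _ => hnr) (w, j) (by
      rw [mem_product, Set.Finite.mem_toFinset]
      exact ⟨hw, (hJm j).2 ⟨hj, hj0⟩⟩)
    have h2 : weylSum s w j n (m 0) = ∑ k ∈ range n, w k * ∏ i : Fin s,
        (if j i ≤ 4 then (Polynomial.Chebyshev.U ℝ (j i : ℤ)).eval (Pool.Agent.Y57.FD.KM.ca (Pool.Agent.TH894.NF.pr (k + i)) (m 0)) else 0) := by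
      unfold weylSum
      refine sum_congr rfl fun k _ => ?_
      congr 1
      refine prod_congr rfl fun i _ => ?_
      rw [if_pos (hj i)]
      rfl
    rw [h2]
    exact h1

end Pool.Agent.Results.MP_6ea630_nt.FewDigitWeylSums
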